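import Pool.Agent.H8.WP.Targets

/-!
# Equality of the two copies
-/

set_option autoImplicit false

namespace Pool.Agent.H18.WP

open Pool.Agent.H8.WP

private lemma card_side {V : Type} [Finite V] {s : V → Bool} {lt : V → V → Prop} {rk : V → ℕ}
    {M : Bool → ℕ} (h : Rk s lt rk M) (b : Bool) : Nat.card {x // s x = b} = M b := by
  have : Function.Bijective (fun x : {x // s x = b} => (⟨rk x.1, by
      have := h.ltM x.1
      rwa [x.2] at this⟩ : Fin (M b))) := by
    constructor
    · intro x y hxy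
      have h1 : rk x.1 = rk y.1 := by
        simpa using congrArg Fin.val hxy
      exact Subtype.ext (h.inj _ _ (by rw [x.2, y.2]) h1)
    · intro i
      obtain ⟨x, hx, hxr⟩ := h.sur b i.1 i.2
      exact ⟨⟨x, hx⟩, Fin.ext hxr⟩
  rw [Nat.card_eq_of_bijective _ this, Nat.card_eq_fintype_card, Fintype.card_fin]

theorem pf_ai (hAL : W_AL) (hSU : W_SU) : W_AI := by
  intro V Q _ _ U Hh Vv st lt S I D F G rk M hP htr hRk
  obtain ⟨hM0, hmx, -⟩ := hSU V Q U Hh Vv st lt S I D F G rk M hP hRk
  -- the sizes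
  have hcard : M true = M false := by
    choose f hf using fun x : {x // (st x).s = false} => (hP.ii x.1 x.2).exists
    have hb : Function.Bijective (fun x : {x // (st x).s = false} =>
        (⟨f x, (hf x).1⟩ : {y // (st y).s = true})) := by
      constructor
      · intro x y hxy
        have h1 : f x = f y := congrArg Subtype.val hxy
        refine Subtype.ext ((hP.ii' (f x) (hf x).1).unique ⟨x.2, (hf x).2⟩ ⟨y.2, ?_⟩)
        rw [h1]
        exact (hf y).2
      · intro y
        obtain ⟨x, hx, hxI⟩ := (hP.ii' y.1 y.2).exists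
        refine ⟨⟨x, hx⟩, Subtype.ext ?_⟩
        exact (hP.ii x hx).unique ⟨(hf ⟨x, hx⟩).1, (hf ⟨x, hx⟩).2⟩ ⟨y.2, hxI⟩
    have := Nat.card_eq_of_bijective _ hb
    have h1 := card_side hRk false
    have h2 := card_side hRk true
    rw [← h1, ← h2]
    exact this.symm
  have hlt : ∀ x x' y, (st x).s = false → (st x').s = false → (st y).s = true → rk x ≤ rk x' →
      lt y x → lt y x' := by
    intro x x' y hx hx' _ hle hyx
    rcases Nat.lt_or_ge (rk x) (rk x') with h | h
    · exact htr _ _ _ hyx ((hRk.lti x x' (by rw [hx, hx'])).2 h)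
    · have : x = x' := hRk.inj _ _ (by rw [hx, hx']) (le_antisymm hle h)
      rwa [← this]
  have hA := hAL V (fun x => (st x).s) lt rk M (fun x y => lt y x) D I (M false - 1) 1 hRk
    one_pos (Nat.sub_le _ _)
    (fun x hx => by
      obtain ⟨l, hl⟩ := hRk.dn x
      exact ⟨l, fun y hy => hl y (by
        rw [hx, hy]; decide)⟩)
    hlt
    (fun x hx hxp => by
      refine ⟨hP.dd x hx ?_, hP.ii x hx⟩
      rw [(hmx x hx).1]
      omega)
    (fun x y hx hy hxp hD => by
      obtain ⟨h1, h2, h3⟩ := hP.dl x y hx hy hD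
      refine ⟨h1, ?_, ?_⟩
      · by_contra h0
        have h0' : rk y = 0 := by omega
        obtain ⟨y1, hy1, hI1⟩ := (hP.ii x hx).exists
        have hl1 := (hP.il x y1 hx hy1 hI1).1
        rcases Nat.eq_zero_or_pos (rk y1) with h4 | h4
        · have : y = y1 := hRk.inj _ _ (by
            rw [hy, hy1]) (by rw [h0', h4])
          exact h1 (this ▸ hl1)
        · exact h1 (htr _ _ _ ((hRk.lti y y1 (by
            rw [hy, hy1])).2 (by omega)) hl1)
      · have := hRk.ltM y
        rw [hy, hcard] at this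
        omega)
    (fun x y hx hy _ hI => ⟨(hP.il x y hx hy hI).1, by omega⟩)
    (fun x x' y hx hx' hy _ _ hD hD' =>
      (hP.dd' y hy (hP.dl x y hx hy hD).2.2).unique ⟨hx, hD⟩ ⟨hx', hD'⟩)
    (fun x x' y hx hx' hy _ _ hI hI' => (hP.ii' y hy).unique ⟨hx, hI⟩ ⟨hx', hI'⟩)
  -- partners have equal rank
  have hI : ∀ x y, (st x).s = false → (st y).s = true → I x y → rk y = rk x := by
    intro x y hx hy hxy
    have hxM : rk x < M false := by
      have := hRk.ltM x
      rwa [hx] at this
    have hyM : rk y < M false := by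
      have := hRk.ltM y
      rwa [hy, hcard] at this
    rcases Nat.lt_or_ge (rk x) (M false - 1) with h | h
    · have := (hA x y hx hy h).2 hxy
      omega
    · by_contra hne
      have hyl : rk y < M false - 1 := by omega
      obtain ⟨x', hx', hx'r⟩ := hRk.sur false (rk y) hyM
      obtain ⟨y', hy', hI'⟩ := (hP.ii x' hx').exists
      have h1 := (hA x' y' hx' hy' (by rw [hx'r]; exact hyl)).2 hI'
      have h2 : y' = y := hRk.inj _ _ (by
        rw [hy, hy']) (by omega)
      rw [h2] at hI'
      have h3 : x = x' := (hP.ii' y hy).unique ⟨hx, hxy⟩ ⟨hx', hI'⟩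
      rw [h3] at hne
      omega
  refine ⟨hcard, fun x y hx hy => ⟨hI x y hx hy, fun h => ?_⟩⟩
  obtain ⟨y1, hy1, hI1⟩ := (hP.ii x hx).exists
  have h1 := hI x y1 hx hy1 hI1
  have h2 : y1 = y := hRk.inj _ _ (by
    rw [hy, hy1]) (by omega)
  rwa [h2] at hI1

end Pool.Agent.H18.WP
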