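import Pool.Agent.H8.WP.Targets

/-!
# Alignment of the two sides
-/

set_option autoImplicit false

namespace Pool.Agent.H18.WP

open Pool.Agent.H8.WP

theorem pf_al (hPH : W_PH) : W_AL := by
  intro V _ s lt rk M Λ F G p q hRk hq hpM hΛ hmono hFG hF hG hFi hGi
  have hX : ∀ i, i < p → ∃ x, s x = false ∧ rk x = i := fun i hi =>
    hRk.sur false i (lt_of_lt_of_le hi hpM)
  by_cases hp : p = 0
  · intro x y _ _ hx
    omega
  have hp0 : 0 < p := Nat.pos_of_ne_zero hp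
  obtain ⟨x0, hx0, hx0r⟩ := hX 0 hp0
  -- representatives
  have hch : ∀ i, ∃ x, i < p → (s x = false ∧ rk x = i) := fun i => by
    by_cases hi : i < p
    · obtain ⟨x, hx⟩ := hX i hi
      exact ⟨x, fun _ => hx⟩
    · exact ⟨x0, fun h => absurd h hi⟩
  choose X hXs using hch
  have hFy : ∀ i, ∃ y, i < p → (s y = true ∧ F (X i) y) := fun i => by
    by_cases hi : i < p
    · obtain ⟨h1, h2⟩ := hXs i hi
      obtain ⟨⟨y, hy, -⟩, -⟩ := hFG (X i) h1 (by rw [h2]; exact hi)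
      exact ⟨y, fun _ => hy⟩
    · exact ⟨x0, fun h => absurd h hi⟩
  choose Y hY using hFy
  have hGy : ∀ i, ∃ y, i < p → (s y = true ∧ G (X i) y) := fun i => by
    by_cases hi : i < p
    · obtain ⟨h1, h2⟩ := hXs i hi
      obtain ⟨-, ⟨y, hy, -⟩⟩ := hFG (X i) h1 (by rw [h2]; exact hi)
      exact ⟨y, fun _ => hy⟩
    · exact ⟨x0, fun h => absurd h hi⟩
  choose Z hZ using hGy
  have hu : ∀ i, ∃ u, i < p → ∀ y, s y = true → (Λ (X i) y ↔ rk y < u) := fun i => by
    by_cases hi : i < p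
    · obtain ⟨u, hu⟩ := hΛ (X i) (hXs i hi).1
      exact ⟨u, fun _ => hu⟩
    · exact ⟨0, fun h => absurd h hi⟩
  choose u hu using hu
  have hrX : ∀ i, i < p → rk (X i) < p := fun i hi => by rw [(hXs i hi).2]; exact hi
  have hA := hPH p q (fun i => rk (Y i)) (fun i => rk (Z i)) u hq
    (fun i hi => (hF (X i) (Y i) (hXs i hi).1 (hY i hi).1 (hrX i hi) (hY i hi).2).2)
    (fun i hi => (hG (X i) (Z i) (hXs i hi).1 (hZ i hi).1 (hrX i hi) (hZ i hi).2).2)
    (fun i hi => by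
      refine ⟨?_, ?_⟩
      · exact (hu i hi (Z i) (hZ i hi).1).1
          (hG (X i) (Z i) (hXs i hi).1 (hZ i hi).1 (hrX i hi) (hZ i hi).2).1
      · by_contra hlt
        exact (hF (X i) (Y i) (hXs i hi).1 (hY i hi).1 (hrX i hi) (hY i hi).2).1
          ((hu i hi (Y i) (hY i hi).1).2 (not_le.1 hlt)))
    (fun i j hij hj => by
      by_contra hlt
      have hi : i < p := lt_of_le_of_lt hij hj
      have hlt' : u j < u i := not_le.1 hlt
      have h1 : u i ≤ rk (Y i) := by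
        by_contra hl2
        exact (hF (X i) (Y i) (hXs i hi).1 (hY i hi).1 (hrX i hi) (hY i hi).2).1
          ((hu i hi (Y i) (hY i hi).1).2 (not_le.1 hl2))
      have h2 : rk (Y i) < M true := by
        have := hRk.ltM (Y i)
        rwa [(hY i hi).1] at this
      obtain ⟨y, hy, hyr⟩ := hRk.sur true (u j) (by omega)
      have h3 : Λ (X i) y := (hu i hi y hy).2 (by rw [hyr]; exact hlt')
      have h4 : Λ (X j) y := hmono (X i) (X j) y (hXs i hi).1 (hXs j hj).1 hy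
        (by rw [(hXs i hi).2, (hXs j hj).2]; exact hij) h3
      have h5 := (hu j hj y hy).1 h4
      omega)
    (fun i hi j hj hij => by
      have h1 : Y i = Y j := hRk.inj _ _ (by rw [(hY i hi).1, (hY j hj).1]) hij
      have h2 : X i = X j := hFi (X i) (X j) (Y i) (hXs i hi).1 (hXs j hj).1 (hY i hi).1
        (hrX i hi) (hrX j hj) (hY i hi).2 (by rw [h1]; exact (hY j hj).2)
      rw [← (hXs i hi).2, ← (hXs j hj).2, h2])
    (fun i hi j hj hij => by
      have h1 : Z i = Z j := hRk.inj _ _ (by rw [(hZ i hi).1, (hZ j hj).1]) hij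
      have h2 : X i = X j := hGi (X i) (X j) (Z i) (hXs i hi).1 (hXs j hj).1 (hZ i hi).1
        (hrX i hi) (hrX j hj) (hZ i hi).2 (by rw [h1]; exact (hZ j hj).2)
      rw [← (hXs i hi).2, ← (hXs j hj).2, h2])
  intro x y hx hy hxp
  have hxX : X (rk x) = x := hRk.inj _ _ (by rw [(hXs _ hxp).1, hx]) (hXs _ hxp).2
  obtain ⟨⟨y1, -, hu1⟩, ⟨y2, -, hu2⟩⟩ := hFG x hx hxp
  refine ⟨fun hf => ?_, fun hg => ?_⟩
  · have h1 : y = y1 := hu1 y ⟨hy, hf⟩
    have h2 : Y (rk x) = y1 := hu1 _ ⟨(hY _ hxp).1, by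
      have := (hY _ hxp).2
      rwa [hxX] at this⟩
    have h3 := (hA (rk x) hxp).1
    rw [h1, ← h2, h3, Nat.add_comm]
  · have h1 : y = y2 := hu2 y ⟨hy, hg⟩
    have h2 : Z (rk x) = y2 := hu2 _ ⟨(hZ _ hxp).1, by
      have := (hZ _ hxp).2
      rwa [hxX] at this⟩
    have h3 := (hA (rk x) hxp).2
    rw [h1, ← h2, h3, Nat.add_comm]

end Pool.Agent.H18.WP
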